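import Pool.Agent.Helper87.NJ.St
import Pool.Agent.Helper38.NJ.Clo

/-! NSLJ: [CLOSE], the closing step at one level: the forms of `V` at the copies and the form of `W` are comparable up to
the cost of the two informations, which contradicts the transversality with threshold. -/

set_option autoImplicit false

namespace Pool.Agent.Helper15.NJ

open Finset Filter Topology Matrix Pool.Agent.Helper69.RK Pool.Agent.Helper31.EC Pool.Agent.Helper31.EC.Sp
open Pool.Agent.Helper40.EL Pool.Agent.Helper89.LX Pool.Agent.Helper84.MT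
open Pool.Agent.Helper3.LF (Mon phi)
open Pool.Agent.Helper42.NS (ptr)
open Pool.Agent.Helper52.SL (cellv_chg nul_trn)
open Pool.Agent.Helper69.LAB (I_chg_top)
open Pool.Agent.Helper49.MD (dlF)
open Pool.Agent.Helper66.NJ (Kn1 zFD gG gG_eq)
open Pool.Agent.Helper38.NSL Pool.Agent.Helper38.NJ
open Pool.Agent.Helper87.NSL (FmG CostP ptF)
open Pool.Agent.Helper87.NJ

noncomputable section

variable {S T : Sp} {M N D : ℕ} {E : ℕ → ℕ} {ι : Type}

/-! ### finite unions -/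

theorem pb_ex_le (F : FSp) (r : ℕ) (B : Fin r → F.Ω → Prop) : F.pb (fun w => ∃ i, B i w) ≤ ∑ i, F.pb (B i) := by
  have h1 : ∀ i, F.pb (B i) = ∑ ω, F.μ ω * e1_ind (B i ω) := fun i => Pool.Agent.Helper59.GR.pb_ind F (B i)
  rw [Pool.Agent.Helper59.GR.pb_ind, Finset.sum_congr rfl (fun i _ => h1 i), Finset.sum_comm]
  apply Finset.sum_le_sum
  intro ω _
  rw [← Finset.mul_sum]
  apply mul_le_mul_of_nonneg_left _ (F.nn ω)
  have h0 : ∀ P : Prop, 0 ≤ e1_ind P := fun P => by unfold e1_ind; split_ifs <;> norm_num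
  by_cases h : ∃ i, B i ω
  · obtain ⟨i, hi⟩ := h
    rw [e1_ind_pos ⟨i, hi⟩, ← e1_ind_pos hi]
    exact Finset.single_le_sum (f := fun i => e1_ind (B i ω)) (fun i _ => h0 _) (Finset.mem_univ i)
  · rw [e1_ind_neg h]
    exact Finset.sum_nonneg fun i _ => h0 _

/-! ### truncations -/

/-- leaks of partitions of the truncated space -/
theorem leak_trn {F : FSp} (b : ℝ) (h0 : 0 < b) (V A : Setoid F.Ω) :
    (FLab.mk (FLab.triv (F.chg ⊤ b h0)).T (FLab.triv (F.chg ⊤ b h0)).p (FLab.triv (F.chg ⊤ b h0)).hn V).leak (fc A) =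
      (FLab.mk (FLab.triv F).T (FLab.triv F).p (FLab.triv F).hn V).leak (fc A) :=
  I_chg_top b h0 V (Setoid.ker fun ω : F.Ω => ω) A

theorem nul_lk {Q : S.VV M} (l : Leaf S Q E) {b : ℝ} (h0 : 0 < b) (h1 : b ≤ 1) (V : ∀ k, Setoid (S.F k).Ω)
    (G : ∀ k, (S.F k).Ω → Matrix (Mon M D) (Mon M D) ℝ)
    (h : Nul S fun k => ((Lab.ofZ V) k).leak (l.win 0 k)) :
    Nul (S.chg S.tr b h0) (fun k => (zFD (F := (S.chg S.tr b h0).F k) (V k) (G k)).l.leak ((l.trn b h0 h1).win 0 k)) := by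
  rw [nul_trn]
  have e : (fun k => (zFD (F := (S.chg S.tr b h0).F k) (V k) (G k)).l.leak ((l.trn b h0 h1).win 0 k)) =
      fun k => ((Lab.ofZ V) k).leak (l.win 0 k) := by
    funext k
    have e0 : (l.Y.chg S.tr b h0).cellv 0 k = l.Y.cellv 0 k := (cellv_chg l.Y b h0 0 k).trans (by rw [mul_zero])
    have e1 : (l.trn b h0 h1).win 0 k = (fc (l.La k ⊓ Setoid.ker (l.Y.cellv 0 k)) : FL ((S.F k).chg ⊤ b h0)) :=
      congrArg (fun f => (fc (l.La k ⊓ Setoid.ker f) : FL ((S.F k).chg ⊤ b h0))) e0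
    rw [e1]
    exact leak_trn b h0 (V k) _
  rw [e]
  exact h

/-- the point in the window, in the extension -/
theorem inw_pull {Q : S.VV M} (l : Leaf S Q E) (P : Pj T S) {b : ℝ} (h0 : 0 < b) (h1 : b ≤ 1) {c : ℝ} {T' : ℕ → FSp}
    {o : ∀ k, (T' k).Ω → (T.F k).Ω} {q : ∀ k, (T' k).Ω → Fin M → ℝ}
    (h : InW (l.trn b h0 h1) c T' (fun k w => P.π k (o k w)) q) : InW ((l.pull P).trn b h0 h1) c T' o q := by
  obtain ⟨K, hK, h2, h3⟩ := h
  have e1 : ∀ c k, (T.chg T.tr b h0).dl c k = (S.chg S.tr b h0).dl c k := fun c k => by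
    unfold Sp.dl
    rw [(ptr P b h0).hn k]
  refine ⟨K, (ptr P b h0).sub hK, h2, ?_⟩
  filter_upwards [h3] with k hk w hw
  obtain ⟨y, a1, a2⟩ := hk w hw
  refine ⟨y, fun j => ?_, fun j => ?_⟩
  · rw [e1]
    exact a1 j
  · rw [e1]
    exact a2 j

/-! ### informations -/

theorem inf_UB (Q : S.VV M) (x : ∀ k, FD (S.F k) (Mon M D)) (T' : ℕ → FSp) (r : ∀ k, FPj (T' k) (x k).l.T)
    (V' : ∀ k, Setoid (T' k).Ω) : UB (inf Q x T' r V') := by
  apply UB.sandwich (UB_const 0) (pcd_Bd Q)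
  · exact Eventually.of_forall fun k => div_nonneg (I_nonneg _ _ _) (S.F k).pos.le
  · refine Eventually.of_forall fun k => div_le_div_of_nonneg_right ?_ (S.F k).pos.le
    refine (I_le_h_right _ _ _).trans ((h_le_H _ _).trans ?_)
    rw [(r k).H_map, (x k).l.p.H_map]
    exact le_rfl

/-- the information about the point of an extension, for a partition of the extension -/
theorem inf_eq (Q : S.VV M) {b : ℝ} (h0 : 0 < b) (V : ∀ k, Setoid (S.F k).Ω)
    (G : ∀ k, (S.F k).Ω → Matrix (Mon M D) (Mon M D) ℝ) (o : Pj T S) (W : ∀ k, Setoid (T.F k).Ω) (k : ℕ) :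
    inf (Q.chg S.tr b h0) (fun k => zFD (F := (S.chg S.tr b h0).F k) (V k) (G k)) (fun k => (T.chg T.tr b h0).F k)
      (fun k => (ptr o b h0).fp k) W k =
      b⁻¹ * (I (fc (W k)) (fc (o.pb (fun k => Setoid.ker (Q.cellv b k)) k)) (fc (o.pb V k)) / (T.F k).n) := by
  have e1 : (Q.chg S.tr b h0).cellv 1 k = Q.cellv b k := (cellv_chg Q b h0 1 k).trans (by rw [mul_one])
  have e2 : inf (Q.chg S.tr b h0) (fun k => zFD (F := (S.chg S.tr b h0).F k) (V k) (G k))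
      (fun k => (T.chg T.tr b h0).F k) (fun k => (ptr o b h0).fp k) W k =
      I (fc (F := (T.F k).chg ⊤ b h0) (W k)) (fc (Setoid.comap (o.π k) (Setoid.ker ((Q.chg S.tr b h0).cellv 1 k))))
        (fc (Setoid.comap (o.π k) (V k))) / (b * (S.F k).n) := rfl
  have e3 : I (fc (F := (T.F k).chg ⊤ b h0) (W k))
      (fc (Setoid.comap (o.π k) (Setoid.ker ((Q.chg S.tr b h0).cellv 1 k)))) (fc (Setoid.comap (o.π k) (V k))) =
      I (fc (F := (T.F k).chg ⊤ b h0) (W k)) (fc (Setoid.comap (o.π k) (Setoid.ker (Q.cellv b k))))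
        (fc (Setoid.comap (o.π k) (V k))) :=
    congrArg (fun f => I (fc (F := (T.F k).chg ⊤ b h0) (W k)) (fc (Setoid.comap (o.π k) (Setoid.ker f)))
      (fc (Setoid.comap (o.π k) (V k)))) e1
  have e4 := I_chg_top (F := T.F k) b h0 (W k) (Setoid.comap (o.π k) (Setoid.ker (Q.cellv b k)))
    (Setoid.comap (o.π k) (V k))
  have h3 : ∀ x n : ℝ, x / (b * n) = b⁻¹ * (x / n) := fun x n => by
    rw [← div_div, div_right_comm, div_eq_inv_mul (x / n)]
  refine e2.trans ((congrArg (fun x => x / (b * (S.F k).n)) (e3.trans e4)).trans ?_)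
  show _ / (b * (S.F k).n) = _
  rw [← o.hn k]
  exact h3 _ _

theorem inf_le (Q : S.VV M) {b : ℝ} (h0 : 0 < b) (V : ∀ k, Setoid (S.F k).Ω)
    (G : ∀ k, (S.F k).Ω → Matrix (Mon M D) (Mon M D) ℝ) (o : Pj T S) (W : ∀ k, Setoid (T.F k).Ω) {a : ℝ}
    (h : ul (fun k => I (fc (W k)) (fc (o.pb (fun k => Setoid.ker (Q.cellv b k)) k)) (fc (o.pb V k)) / (T.F k).n) ≤
      a * b) :
    ul (inf (Q.chg S.tr b h0) (fun k => zFD (F := (S.chg S.tr b h0).F k) (V k) (G k))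
      (fun k => (T.chg T.tr b h0).F k) (fun k => (ptr o b h0).fp k) W) ≤ a := by
  have hU := inf_UB (Q.chg S.tr b h0) (fun k => zFD (F := (S.chg S.tr b h0).F k) (V k) (G k))
      (fun k => (T.chg T.tr b h0).F k) (fun k => (ptr o b h0).fp k) W
  have e1 := fun k => inf_eq Q h0 V G o W k
  have e2 : (fun k => I (fc (W k)) (fc (o.pb (fun k => Setoid.ker (Q.cellv b k)) k)) (fc (o.pb V k)) / (T.F k).n) =
      fun k => b * inf (Q.chg S.tr b h0) (fun k => zFD (F := (S.chg S.tr b h0).F k) (V k) (G k))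
      (fun k => (T.chg T.tr b h0).F k) (fun k => (ptr o b h0).fp k) W k := by
    funext k
    rw [e1 k, ← mul_assoc, mul_inv_cancel₀ h0.ne', one_mul]
  rw [e2, ul_const_mul _ hU, mul_comm] at h
  exact le_of_mul_le_mul_right h h0

/-! ### closeness at one copy -/

theorem near_one {g gV gW r r1 r2 : ℕ} {b : ℝ} (h0 : 0 < b) (h1 : b ≤ 1) (s : MSys S N (lin g) (Fin r))
    (V : ∀ k, Setoid (S.F k).Ω) (GV : ∀ k, (S.F k).Ω → Matrix (Mon N D) (Mon N D) ℝ) (P o : Pj T S)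
    (W : ∀ k, Setoid (T.F k).Ω) (GW : ∀ k, (T.F k).Ω → Matrix (Mon N D) (Mon N D) ℝ) (i : Fin r) {a e : ℝ}
    (hV : 1 ≤ gV) (hW : 1 ≤ gW)
    (hag : ∀ᶠ k in UF, ∀ w, (T.F k).μ w ≠ 0 → (S.F k).Z (o.π k w) (P.π k w) ∧
      (s.lf i).La k (o.π k w) (P.π k w) ∧ Setoid.ker ((s.lf i).Y.cellv 0 k) (o.π k w) (P.π k w))
    (hLV : Nul S fun k => ((Lab.ofZ V) k).leak ((s.lf i).win 0 k))
    (hLW : Nul T fun k => ((Lab.ofZ W) k).leak (((s.pull P).lf i).win 0 k))
    (τV : MSys (S.chg S.tr b h0) N (lin gV) (Fin r1)) (hQV : τV.Q = s.Q.chg S.tr b h0)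
    (hCV : CostP τV D 0 (fun k => zFD (F := (S.chg S.tr b h0).F k) (V k) (GV k)))
    (hFV : FmG τV.Q (fun k => zFD (F := (S.chg S.tr b h0).F k) (V k) (GV k)))
    (τW : MSys (T.chg T.tr b h0) N (lin gW) (Fin r2)) (hQW : τW.Q = (P.vv s.Q).chg T.tr b h0)
    (hCW : CostP τW D 0 (fun k => zFD (F := (T.chg T.tr b h0).F k) (W k) (GW k)))
    (hFW : FmG τW.Q (fun k => zFD (F := (T.chg T.tr b h0).F k) (W k) (GW k)))
    (hI1 : ul (fun k => I (fc (o.pb V k)) (fc (P.pb (fun k => Setoid.ker (s.Q.cellv b k)) k)) (fc (W k)) /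
      (T.F k).n) ≤ a * b)
    (hI2 : ul (fun k => I (fc (W k)) (fc (o.pb (fun k => Setoid.ker (s.Q.cellv b k)) k)) (fc (o.pb V k)) /
      (T.F k).n) ≤ a * b) (he : 0 < e) (he1 : e ≤ 1) :
    e * ul (fun k => ((T.chg T.tr b h0).F k).pb (fun w => ¬ Nr (2 * e * ((T.chg T.tr b h0).F k).n)
      ((zFD (F := (T.chg T.tr b h0).F k) (W k) (GW k)).g w)
      ((zFD (F := (S.chg S.tr b h0).F k) (V k) (GV k)).g (o.π k w)))) ≤ ((lin gV D + lin gW D : ℕ) : ℝ) * a := by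
  obtain ⟨QV, lV⟩ := τV
  obtain ⟨QW, lW⟩ := τW
  change QV = _ at hQV
  change QW = _ at hQW
  subst hQV
  subst hQW
  have hg : ∀ g' : ℕ, 1 ≤ g' → (e : ℝ) ≤ ((lin g' D : ℕ) : ℝ) := by
    intro g' hg'
    have h3 : 1 ≤ lin g' D := by
      unfold lin
      exact Nat.mul_pos hg' (Nat.succ_pos D)
    have h4 : (1 : ℝ) ≤ ((lin g' D : ℕ) : ℝ) := by exact_mod_cast h3
    linarith
  have key := clo (S := T.chg T.tr b h0) (X := S.chg S.tr b h0) ⟨(P.vv s.Q).chg T.tr b h0, lW⟩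
    ⟨s.Q.chg S.tr b h0, lV⟩ (fun k => ((ptr o b h0).hn k).symm) hCW hFW hCV hFV (((s.pull P).lf i).trn b h0 h1)
    ((s.lf i).trn b h0 h1) le_rfl zero_lt_one le_rfl zero_lt_one (nul_lk ((s.pull P).lf i) h0 h1 W GW hLW)
    (nul_lk (s.lf i) h0 h1 V GV hLV) (fun k => (T.chg T.tr b h0).F k) (fun k => (ptr (Pj.id T) b h0).fp k)
    (fun k => (ptr o b h0).fp k) (fun _ => rfl) (fun k => (ptr o b h0).hn k)
    (inw_pull (s.lf i) P h0 h1 (o := fun k w => w) (InW_of_agree ((s.lf i).trn b h0 h1) (fun k w => P.π k w)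
      (fun k w => o.π k w) (by
        filter_upwards [hag] with k hk w hw
        obtain ⟨a1, a2, a3⟩ := hk w hw
        refine ⟨P.supp k w hw, o.supp k w hw, ⟨trivial, a1⟩, a2, ?_⟩
        show ((s.lf i).Y.chg S.tr b h0).cellv 0 k (o.π k w) = ((s.lf i).Y.chg S.tr b h0).cellv 0 k (P.π k w)
        rw [cellv_chg, mul_zero]
        exact a3)))
    (InW_of_agree ((s.lf i).trn b h0 h1) (fun k w => o.π k w) (fun k w => P.π k w) (by
        filter_upwards [hag] with k hk w hw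
        obtain ⟨a1, a2, a3⟩ := hk w hw
        refine ⟨o.supp k w hw, P.supp k w hw, ⟨trivial, (S.F k).Z.symm' a1⟩, ((s.lf i).La k).symm' a2, ?_⟩
        show ((s.lf i).Y.chg S.tr b h0).cellv 0 k (P.π k w) = ((s.lf i).Y.chg S.tr b h0).cellv 0 k (o.π k w)
        rw [cellv_chg, mul_zero]
        exact a3.symm))
    (inf_UB _ _ _ _ _) (inf_UB _ _ _ _ _) e he (hg gW hW) (hg gV hV)
  refine key.trans ?_
  have e1 : (P.pb (fun k => Setoid.ker (s.Q.cellv b k))) = fun k => Setoid.ker ((P.vv s.Q).cellv b k) := by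
    funext k
    rw [vv_cellv]
    rfl
  rw [e1] at hI1
  have k1 := inf_le (P.vv s.Q) h0 W GW (Pj.id T) (o.pb V) hI1
  have k2 := inf_le s.Q h0 V GV o W hI2
  have k3 := mul_le_mul_of_nonneg_left k1 (Nat.cast_nonneg (α := ℝ) (lin gW D))
  have k4 := mul_le_mul_of_nonneg_left k2 (Nat.cast_nonneg (α := ℝ) (lin gV D))
  refine (add_le_add k3 k4).trans (le_of_eq ?_)
  push_cast
  ring

/-- the event of the closing step -/
theorem hasE_close {F F' : FSp} {r : ℕ} (hr : 0 < r) {Q : F.Ω → Fin N → ℝ} (q : Fin r → FPj F F') (hn : F.n = F'.n)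
    {W : Setoid F.Ω} {V : Setoid F'.Ω} {GW : F.Ω → Matrix (Mon N D) (Mon N D) ℝ}
    {GV : F'.Ω → Matrix (Mon N D) (Mon N D) ℝ} (hW : Kn1 W GW) (hV : Kn1 V GV)
    (cW : ∀ ω, F.μ ω ≠ 0 → Cpd (capF F D) (GW ω)) (cV : ∀ ω, F'.μ ω ≠ 0 → Cpd (capF F' D) (GV ω)) {e η γ : ℝ}
    (he : 0 < e) (hη : η ≤ e) (hη2 : η ≤ 1 / 16)
    (h1 : F.pb (fun w => ¬ γ ≤ gxF F Q GW w) ≤ 1 / 2)
    (h2 : F.pb (fun w => ¬ phi (dlF F 1) (GW w) (Q w) ≤ 2 ^ (η * F.n)) ≤ η)
    (h3 : F.pb (fun w => ∃ i, ¬ Nr (2 * e * F.n) (GW w) (GV ((q i).π w))) ≤ 1 / 8 + 1 / 16) :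
    HasE F N D Q (fun j => Sum.elim (fun _ : Unit => W) (fun i => Setoid.comap (q i).π V) j) (4 * e) (γ - e * N)
      (1 / 4) := by
  have hpos := F.pos
  have hcap : capF F' D = capF F D := by unfold capF; rw [hn]
  have cV' : ∀ i ω, F.μ ω ≠ 0 → Cpd (capF F D) (GV ((q i).π ω)) := fun i ω hω => by
    rw [← hcap]
    exact cV _ ((q i).supp ω hω)
  have i0 : Fin r := ⟨0, hr⟩
  have hen : 0 ≤ e * F.n := mul_nonneg he.le hpos.le
  have e24 : 2 * e * F.n ≤ 4 * e * F.n := by nlinarith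
  have e44 : 2 * e * F.n + 2 * e * F.n ≤ 4 * e * F.n := by nlinarith
  refine ⟨fun w => γ ≤ gxF F Q GW w ∧ phi (dlF F 1) (GW w) (Q w) ≤ 2 ^ (η * F.n) ∧
    ∀ i, Nr (2 * e * F.n) (GW w) (GV ((q i).π w)), Sum.elim (fun _ => GW) (fun i w => GV ((q i).π w)),
    ?_, ?_, ?_, ?_⟩
  · have a1 := FSp.pb_add_compl F (fun w => γ ≤ gxF F Q GW w ∧ phi (dlF F 1) (GW w) (Q w) ≤ 2 ^ (η * F.n) ∧
      ∀ i, Nr (2 * e * F.n) (GW w) (GV ((q i).π w)))
    have a2 : F.pb (fun w => ¬ (γ ≤ gxF F Q GW w ∧ phi (dlF F 1) (GW w) (Q w) ≤ 2 ^ (η * F.n) ∧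
      ∀ i, Nr (2 * e * F.n) (GW w) (GV ((q i).π w)))) ≤ F.pb (fun w => (¬ γ ≤ gxF F Q GW w) ∨
        (¬ phi (dlF F 1) (GW w) (Q w) ≤ 2 ^ (η * F.n)) ∨ ∃ i, ¬ Nr (2 * e * F.n) (GW w) (GV ((q i).π w))) := by
      apply FSp.pb_mono
      intro w _ hw
      by_contra hc
      push Not at hc
      exact hw ⟨hc.1, hc.2.1, hc.2.2⟩
    have a3 := pb_or3 (F := F) (fun w => ¬ γ ≤ gxF F Q GW w)
      (fun w => ¬ phi (dlF F 1) (GW w) (Q w) ≤ 2 ^ (η * F.n))
      (fun w => ∃ i, ¬ Nr (2 * e * F.n) (GW w) (GV ((q i).π w)))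
    linarith
  · rintro (_ | i) ω ω' hω hω' hZ hR
    · exact hW ω ω' hω hω' hR hZ
    · exact hV _ _ ((q i).supp ω hω) ((q i).supp ω' hω') hR (((q i).hZ ω ω' hω hω').mp hZ)
  · rintro (_ | i) ω hω
    · exact cW ω hω
    · exact cV' i ω hω
  · rintro ω hω ⟨b1, b2, b3⟩
    have pW := (cW ω hω).psd
    have pV := fun i => (cV' i ω hω).psd
    refine ⟨?_, ?_⟩
    · rintro (_ | i) (_ | j)
      · exact Nr.mono e44 pW pW ((b3 i0).trans (b3 i0).symm)
      · exact Nr.mono e24 pW (pV j) (b3 j)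
      · exact Nr.mono e24 (pV i) pW (b3 i).symm
      · exact Nr.mono e44 (pV i) (pV j) ((b3 i).symm.trans (b3 j))
    · have hηn : η * F.n ≤ e * F.n := mul_le_mul_of_nonneg_right hη hpos.le
      rintro (_ | i)
      · refine ⟨b2.trans (Real.rpow_le_rpow_of_exponent_le (by norm_num) (by nlinarith)), ?_⟩
        have : (0 : ℝ) ≤ e * N := by positivity
        show γ - e * N ≤ gxF F Q GW ω
        linarith
      · refine ⟨?_, ?_⟩
        · refine (phi_dom (dlF F 1) (Q ω) (b3 i).2).trans ?_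
          refine (mul_le_mul_of_nonneg_left b2 (by positivity)).trans ?_
          rw [← Real.rpow_add (by norm_num)]
          exact Real.rpow_le_rpow_of_exponent_le (by norm_num) (by nlinarith)
        · have a1 := gxF_dom (Q := Q) (A := fun w => GV ((q i).π w)) (B := GW) (ω := ω) (cV' i ω hω) (cW ω hω)
            (a := 2 * e) (by linarith) (b3 i).1
          show γ - e * N ≤ gxF F Q (fun w => GV ((q i).π w)) ω
          linarith

/-- **[CLOSE]** -/
theorem row_close : ROW_CLOSE := by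
  intro N D g r gV gW b h0 S T s V GV P o W GW K g₀ e γ a h1 hr hV hW hK hag hLV hLW hVl hWl hNH hI1 hI2 he he1 ha hγ hgx
  obtain ⟨r1, τV, hQV, hkV, hCV, hFV, -⟩ := hVl
  obtain ⟨r2, τW, hQW, hkW, hCW, hFW, -⟩ := hWl
  have hr' : (0 : ℝ) < r := by exact_mod_cast hr
  -- closeness
  have key := fun i => near_one h0 h1 s V GV P (o i) W GW i hV hW (hag i) (hLV i) (hLW i) τV hQV hCV hFV τW hQW hCW hFW
    (hI1 i) (hI2 i) he he1
  set C : ℝ := ((lin gV D + lin gW D : ℕ) : ℝ) with hC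
  have hU : ∀ (B : ∀ k, ((T.chg T.tr b h0).F k).Ω → Prop), UB (fun k => ((T.chg T.tr b h0).F k).pb (B k)) := fun B =>
    UB_of_nonneg_le (C := 1) (Eventually.of_forall fun k => FSp.pb_nonneg _ _)
      (Eventually.of_forall fun k => FSp.pb_le_one _ _)
  have hev : ∀ᶠ k in UF, ∀ i : Fin r, ((T.chg T.tr b h0).F k).pb (fun w => ¬ Nr (2 * e * ((T.chg T.tr b h0).F k).n)
      ((zFD (F := (T.chg T.tr b h0).F k) (W k) (GW k)).g w)
      ((zFD (F := (S.chg S.tr b h0).F k) (V k) (GV k)).g ((o i).π k w))) < C * a / e + 1 / (16 * r) := by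
    rw [Filter.eventually_all]
    intro i
    apply eventually_lt_of_ul_lt (hU _)
    have h3 := key i
    rw [mul_comm, ← le_div_iff₀ he] at h3
    refine lt_of_le_of_lt h3 ?_
    have : (0 : ℝ) < 1 / (16 * r) := by positivity
    linarith
  have hη : 0 < min e (1 / 16 : ℝ) := lt_min he (by norm_num)
  have hN := hNH (4 * e) (γ - e * N) (1 / 4) (by linarith) (by
    have h3 : (0 : ℝ) ≤ N := Nat.cast_nonneg N
    have h4 : 0 ≤ K * e := mul_nonneg hK he.le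
    have h5 : (0 : ℝ) ≤ N * e := mul_nonneg h3 he.le
    nlinarith) (by norm_num)
  rw [hQW] at hFW
  obtain ⟨k, c1, c2, c3, c4, c5, c6, c7, c8⟩ := (hN.and (hkV.and (hkW.and (hFV.1.and (hFW.1.and
    ((hFW.2 _ hη).and (hev.and hgx))))))).exists
  apply c1
  have eW : (zFD (F := (T.chg T.tr b h0).F k) (W k) (GW k)).g = GW k := Pool.Agent.Helper66.NJ.zFD_g c3
  have eV : (zFD (F := (S.chg S.tr b h0).F k) (V k) (GV k)).g = GV k := Pool.Agent.Helper66.NJ.zFD_g c2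
  rw [eW, eV] at c7
  have c4' : ∀ ω, ((S.chg S.tr b h0).F k).μ ω ≠ 0 → Cpd (capF ((S.chg S.tr b h0).F k) D) (GV k ω) := by
    intro ω hω
    have := c4 ω hω
    rwa [eV] at this
  have c5' : ∀ ω, ((T.chg T.tr b h0).F k).μ ω ≠ 0 → Cpd (capF ((T.chg T.tr b h0).F k) D) (GW k ω) := by
    intro ω hω
    have := c5 ω hω
    rwa [eW] at this
  have e5 : (fun i => (Sum.elim (fun _ : Unit => W) fun i => (o i).pb V) i k) =
      fun j => Sum.elim (fun _ : Unit => W k) (fun i => Setoid.comap ((ptr (o i) b h0).fp k).π (V k)) j := by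
    funext j
    cases j <;> rfl
  have e6 : ∀ W' : Unit ⊕ Fin r → Setoid ((T.chg T.tr b h0).F k).Ω,
      (fun i => (Sum.elim (fun _ : Unit => W) fun i => (o i).pb V) i k) = W' →
      HasE ((T.chg T.tr b h0).F k) N D (((P.vv s.Q).chg T.tr b h0).v k) W' (4 * e) (γ - e * N) (1 / 4) →
      HasE ((T.chg T.tr b h0).F k) N D (((P.vv s.Q).chg T.tr b h0).v k)
        (fun i => (Sum.elim (fun _ : Unit => W) fun i => (o i).pb V) i k) (4 * e) (γ - e * N) (1 / 4) := by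
    intro W' hW' h
    subst hW'
    exact h
  refine e6 _ e5 ?_
  refine hasE_close (F := (T.chg T.tr b h0).F k) (F' := (S.chg S.tr b h0).F k) hr
    (fun i => (ptr (o i) b h0).fp k) ((ptr P b h0).hn k) c3 c2 c5' c4' he (min_le_left _ _) (min_le_right _ _) c8
    ?_ ?_
  · have := c6
    rw [eW] at this
    exact this
  · refine (pb_ex_le _ r _).trans ?_
    refine (Finset.sum_le_sum fun i _ => (c7 i).le).trans ?_
    rw [Finset.sum_const, Finset.card_univ, Fintype.card_fin, nsmul_eq_mul]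
    have h3 : (r : ℝ) * (C * a / e) ≤ 1 / 8 := by
      rw [← mul_div_assoc, div_le_iff₀ he]
      linarith
    have h4 : (r : ℝ) * (1 / (16 * r)) = 1 / 16 := by
      field_simp
    rw [mul_add, h4]
    linarith

end

end Pool.Agent.Helper15.NJ
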